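import Mathlib
import Pool.Agent.Helper17.UL.PrmDef

set_option autoImplicit false

/-!
# The explicit parameters of the uniform simulation (piece for helper17)
-/

namespace Pool.Agent.Helper17.UL

private lemma sq_le_two_pow_add' (z : ℕ) : z * z ≤ 2 ^ z + 2 * z := by
  induction z with
  | zero => simp
  | succ n ih =>
    by_cases hn : n < 3
    · interval_cases n <;> norm_num
    · have h1 : 2 * n + 1 ≤ 2 ^ n + 2 := by
        have h2 : 2 * n ≤ 2 ^ n := by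
          clear ih
          induction n with
          | zero => simp
          | succ k ihk =>
            by_cases hk : k < 3
            · interval_cases k <;> first | (exfalso; omega) | norm_num
            · have := ihk hk
              rw [pow_succ]
              omega
        omega
      rw [pow_succ]
      nlinarith

/-- Everything about `y` and `z`. -/
private lemma yz (T : ℕ) (hT : 16 ≤ T) :
    4 ≤ pY T ∧ 2 ≤ pZ T ∧ T < 2 ^ (pY T + 1) ∧ 2 ^ pZ T ≤ pY T ∧ pY T < 2 ^ (pZ T + 1) ∧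
    pZ T ≤ pY T ∧ pZ T * pZ T ≤ 3 * pY T := by
  have hy4 : 4 ≤ pY T := Nat.le_log_of_pow_le (by norm_num) (by norm_num; exact hT)
  have hz2 : 2 ≤ pZ T := Nat.le_log_of_pow_le (by norm_num) (by norm_num; exact hy4)
  have h3 : T < 2 ^ (pY T + 1) := Nat.lt_pow_succ_log_self (by norm_num) T
  have h4 : 2 ^ pZ T ≤ pY T := Nat.pow_log_le_self 2 (by omega)
  have h5 : pY T < 2 ^ (pZ T + 1) := Nat.lt_pow_succ_log_self (by norm_num) _
  have h6 : pZ T ≤ pY T := (Nat.lt_two_pow_self).le.trans h4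
  refine ⟨hy4, hz2, h3, h4, h5, h6, ?_⟩
  have := sq_le_two_pow_add' (pZ T)
  omega

private lemma Mfacts (T : ℕ) (hT : 16 ≤ T) :
    0 < pM T ∧ pY T + pZ T ≤ pM T * pZ T ∧ pM T * pZ T ≤ 3 * pY T ∧ pM T ≤ pY T ∧
    pM T ≤ 2 ^ (pZ T + 1) ∧ 2 ^ pZ T ≤ pM T * pM T := by
  obtain ⟨hy4, hz2, hTy, hzy, hyz, hzley, hzz⟩ := yz T hT
  have hM : pM T = pY T / pZ T + 2 := rfl
  obtain ⟨y, hy⟩ : ∃ y : ℕ, y = pY T := ⟨_, rfl⟩
  obtain ⟨z, hz⟩ : ∃ z : ℕ, z = pZ T := ⟨_, rfl⟩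
  obtain ⟨M, hM'⟩ : ∃ M : ℕ, M = pM T := ⟨_, rfl⟩
  rw [← hy, ← hz] at hM
  rw [← hM'] at hM ⊢
  rw [← hy] at hy4 hTy hzy hyz hzley hzz ⊢
  rw [← hz] at hz2 hzy hyz hzley hzz ⊢
  have hdm := Nat.div_add_mod y z
  have hml := Nat.mod_lt y (show 0 < z by omega)
  have hMz : M * z = z * (y / z) + 2 * z := by
    rw [hM]
    ring
  have hMz1 : y + z ≤ M * z := by
    rw [hMz]
    omega
  have hMz2 : M * z ≤ 3 * y := by
    rw [hMz]
    omega
  have hM0 : 0 < M := by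
    rw [hM]
    exact Nat.succ_pos _
  have hMy : M ≤ y := by
    have h1 : y / z ≤ y / 2 := Nat.div_le_div_left hz2 (by norm_num)
    omega
  refine ⟨hM0, hMz1, hMz2, hMy, hMy.trans hyz.le, ?_⟩
  have h1 : (y + z) * (y + z) ≤ (M * z) * (M * z) := Nat.mul_le_mul hMz1 hMz1
  have h2 := sq_le_two_pow_add' z
  have h3 : 2 ^ z * (z * z) ≤ (M * M) * (z * z) := by
    calc 2 ^ z * (z * z) ≤ 2 ^ z * (2 ^ z + 2 * z) := Nat.mul_le_mul_left _ h2
      _ ≤ y * (y + 2 * z) := Nat.mul_le_mul hzy (by omega)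
      _ ≤ (y + z) * (y + z) := by nlinarith
      _ ≤ (M * z) * (M * z) := h1
      _ = (M * M) * (z * z) := by ring
  exact Nat.le_of_mul_le_mul_right h3 (by positivity)

private lemma Dfacts (κ T : ℕ) (hT : 16 ≤ T) :
    0 < pD κ T ∧ 2 ^ (pY T + 2 + Nat.log 2 κ) ≤ pM T ^ pD κ T ∧
    pD κ T * pZ T ≤ (2 * Nat.log 2 κ + 6) * pY T ∧
    pM T ^ pD κ T ≤ 2 ^ ((pZ T + 1) * pD κ T) := by
  obtain ⟨hy4, hz2, hTy, hzy, hyz, hzley, hzz⟩ := yz T hT
  obtain ⟨hM0, hMz1, hMz2, hMy, hM1, hM2⟩ := Mfacts T hT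
  obtain ⟨q, hq⟩ : ∃ q : ℕ, q = (pY T + 2 + Nat.log 2 κ) / pZ T + 1 := ⟨_, rfl⟩
  have hD : pD κ T = 2 * q := by
    rw [hq]
    rfl
  rw [hD]
  have hdm2 := Nat.div_add_mod (pY T + 2 + Nat.log 2 κ) (pZ T)
  have hml2 := Nat.mod_lt (pY T + 2 + Nat.log 2 κ) (show 0 < pZ T by omega)
  have hqz : q * pZ T = pZ T * ((pY T + 2 + Nat.log 2 κ) / pZ T) + pZ T := by
    rw [hq]
    ring
  have hq0 : 0 < q := by
    rw [hq]
    exact Nat.succ_pos _
  have hqz1 : pY T + 2 + Nat.log 2 κ ≤ pZ T * q := by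
    rw [mul_comm, hqz]
    omega
  have hqz2 : q * pZ T ≤ pY T + 2 + Nat.log 2 κ + pZ T := by
    rw [hqz]
    omega
  refine ⟨by omega, ?_, ?_, ?_⟩
  · calc 2 ^ (pY T + 2 + Nat.log 2 κ) ≤ 2 ^ (pZ T * q) := Nat.pow_le_pow_right (by norm_num) hqz1
      _ = (2 ^ pZ T) ^ q := by rw [pow_mul]
      _ ≤ (pM T * pM T) ^ q := Nat.pow_le_pow_left hM2 q
      _ = pM T ^ (2 * q) := by rw [pow_mul, pow_two]
  · have h1 : Nat.log 2 κ ≤ Nat.log 2 κ * pY T := Nat.le_mul_of_pos_right _ (by omega)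
    have h2 : (2 * Nat.log 2 κ + 6) * pY T = 2 * (Nat.log 2 κ * pY T) + 6 * pY T := by ring
    have h3 : 2 * q * pZ T = 2 * (q * pZ T) := by ring
    rw [h2, h3]
    omega
  · rw [pow_mul 2 (pZ T + 1)]
    exact Nat.pow_le_pow_left hM1 _

private lemma kappa_lt (κ : ℕ) : κ < 2 ^ (Nat.log 2 κ + 1) :=
  Nat.lt_pow_succ_log_self (by norm_num) κ

/-- exact inequalities -/
theorem prm_exact (κ K T : ℕ) (_hκ : 0 < κ) (_hK : 0 < K) (hT : 16 ≤ T) :
    0 < pM T ∧ 0 < pD κ T ∧ κ * T ≤ pM T ^ pD κ T ∧ κ * pM T ^ pD κ T < 2 ^ pB0 κ T ∧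
    (pf κ K T).Prime ∧ 2 * pb κ K T < pf κ K T - 1 ∧ pf κ K T ≤ 4 * pb κ K T + 8 ∧
    2 ^ (2 * pb κ K T) ≤ pr κ K T ^ pt2 κ K T := by
  obtain ⟨hy4, hz2, hTy, hzy, hyz, hzley, hzz⟩ := yz T hT
  obtain ⟨hM0, hMz1, hMz2, hMy, hM1, hM2⟩ := Mfacts T hT
  obtain ⟨hD0, hD1, hD2, hD3⟩ := Dfacts κ T hT
  have hf := Nat.find_spec (Nat.exists_infinite_primes (2 * pb κ K T + 3))
  have hfeq : pf κ K T = Nat.find (Nat.exists_infinite_primes (2 * pb κ K T + 3)) := rfl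
  rw [← hfeq] at hf
  refine ⟨hM0, hD0, ?_, ?_, hf.2, by omega, ?_, ?_⟩
  · calc κ * T ≤ 2 ^ (Nat.log 2 κ + 1) * 2 ^ (pY T + 1) := Nat.mul_le_mul (kappa_lt κ).le hTy.le
      _ = 2 ^ (pY T + 2 + Nat.log 2 κ) := by
          rw [← pow_add]
          congr 1
          omega
      _ ≤ _ := hD1
  · have hpos : 0 < pM T ^ pD κ T := pow_pos hM0 _
    calc κ * pM T ^ pD κ T < 2 ^ (Nat.log 2 κ + 1) * pM T ^ pD κ T :=
          Nat.mul_lt_mul_of_pos_right (kappa_lt κ) hpos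
      _ ≤ 2 ^ (Nat.log 2 κ + 1) * 2 ^ ((pZ T + 1) * pD κ T) := Nat.mul_le_mul_left _ hD3
      _ = 2 ^ pB0 κ T := by
          rw [← pow_add]
          congr 1
          unfold pB0
          omega
  · obtain ⟨p, hp, h1, h2⟩ := Nat.exists_prime_lt_and_le_two_mul (2 * pb κ K T + 2) (by omega)
    have h3 : pf κ K T ≤ p := by
      rw [hfeq]
      exact Nat.find_min' _ ⟨by omega, hp⟩
    omega
  · have hr2 : 2 ≤ pr κ K T := by
      unfold pr
      omega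
    have hL : 1 ≤ Nat.log 2 (pr κ K T) :=
      Nat.le_log_of_pow_le (by norm_num) (by rw [pow_one]; exact hr2)
    have h1 : 2 ^ Nat.log 2 (pr κ K T) ≤ pr κ K T := Nat.pow_log_le_self 2 (by omega)
    have hdm := Nat.div_add_mod (2 * pb κ K T) (Nat.log 2 (pr κ K T))
    have hml := Nat.mod_lt (2 * pb κ K T) (show 0 < Nat.log 2 (pr κ K T) by omega)
    have h2 : 2 * pb κ K T ≤ Nat.log 2 (pr κ K T) * pt2 κ K T := by
      have h3 : Nat.log 2 (pr κ K T) * pt2 κ K T =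
          Nat.log 2 (pr κ K T) * (2 * pb κ K T / Nat.log 2 (pr κ K T)) +
            Nat.log 2 (pr κ K T) := by
        unfold pt2
        ring
      rw [h3]
      omega
    calc 2 ^ (2 * pb κ K T) ≤ 2 ^ (Nat.log 2 (pr κ K T) * pt2 κ K T) :=
          Nat.pow_le_pow_right (by norm_num) h2
      _ = (2 ^ Nat.log 2 (pr κ K T)) ^ pt2 κ K T := by rw [pow_mul]
      _ ≤ _ := Nat.pow_le_pow_left h1 _

private lemma exp_bound (c : ℕ) : ∃ C : ℝ, 0 < C ∧ ∀ T : ℕ, 16 ≤ T → ∀ s E : ℕ, s ≤ 2 ^ E →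
    pZ T * E ≤ c * pY T ^ 2 →
    (s : ℝ) ≤ Real.exp (C * Real.log T ^ 2 / Real.log (Real.log T)) := by
  have hl2 : 0 < Real.log 2 := Real.log_pos (by norm_num)
  refine ⟨(2 * c + 1) / Real.log 2, by positivity, ?_⟩
  intro T hT s E h7 h8
  obtain ⟨hy4, hz2, hTy, hzy, hyz, hzley, hzz⟩ := yz T hT
  have hyT : 2 ^ pY T ≤ T := Nat.pow_log_le_self 2 (by omega)
  have hl2' : Real.log 2 ≤ 1 := by
    have := Real.log_two_lt_d9
    linarith
  have hTpos : (0 : ℝ) < T := by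
    have : 0 < T := by omega
    exact_mod_cast this
  have hlogT1 : (pY T : ℝ) * Real.log 2 ≤ Real.log T := by
    rw [← Real.log_pow]
    apply Real.log_le_log (by positivity)
    exact_mod_cast hyT
  have hlogT2 : Real.log T ≤ 2 ^ (pZ T + 1) := by
    have e1 : Real.log T ≤ Real.log ((2 : ℝ) ^ (pY T + 1)) := by
      apply Real.log_le_log hTpos
      exact_mod_cast hTy.le
    rw [Real.log_pow] at e1
    have e2 : ((pY T + 1 : ℕ) : ℝ) ≤ 2 ^ (pZ T + 1) := by exact_mod_cast hyz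
    have e3 : ((pY T + 1 : ℕ) : ℝ) * Real.log 2 ≤ ((pY T + 1 : ℕ) : ℝ) * 1 :=
      mul_le_mul_of_nonneg_left hl2' (by positivity)
    linarith
  have hlogT3 : 1 < Real.log T := by
    have e1 : (4 : ℝ) ≤ pY T := by exact_mod_cast hy4
    have e2 := Real.log_two_gt_d9
    nlinarith
  have hll1 : 0 < Real.log (Real.log T) := Real.log_pos hlogT3
  have hll2 : Real.log (Real.log T) ≤ 2 * pZ T := by
    have e1 : Real.log (Real.log T) ≤ Real.log ((2 : ℝ) ^ (pZ T + 1)) :=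
      Real.log_le_log (by linarith) hlogT2
    rw [Real.log_pow] at e1
    have e2 : ((pZ T + 1 : ℕ) : ℝ) * Real.log 2 ≤ ((pZ T + 1 : ℕ) : ℝ) * 1 :=
      mul_le_mul_of_nonneg_left hl2' (by positivity)
    have e3 : (2 : ℝ) ≤ pZ T := by exact_mod_cast hz2
    push_cast at e1 e2
    linarith
  have hE : (E : ℝ) * Real.log 2 ≤
      (2 * c + 1) / Real.log 2 * Real.log T ^ 2 / Real.log (Real.log T) := by
    rw [le_div_iff₀ hll1]
    have e1 : (pZ T : ℝ) * E ≤ c * (pY T : ℝ) ^ 2 := by exact_mod_cast h8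
    have e2 : (pY T : ℝ) ^ 2 * Real.log 2 ^ 2 ≤ Real.log T ^ 2 := by
      rw [← mul_pow]
      exact pow_le_pow_left₀ (by positivity) hlogT1 2
    have e3 : (E : ℝ) * Real.log 2 * Real.log (Real.log T) ≤
        (E : ℝ) * Real.log 2 * (2 * pZ T) :=
      mul_le_mul_of_nonneg_left hll2 (by positivity)
    have e4 : (E : ℝ) * Real.log 2 * (2 * pZ T) ≤ 2 * (c * (pY T : ℝ) ^ 2) * Real.log 2 := by
      nlinarith
    have e5 : 2 * (c * (pY T : ℝ) ^ 2) * Real.log 2 ≤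
        (2 * c + 1) / Real.log 2 * Real.log T ^ 2 := by
      have : 2 * (c * (pY T : ℝ) ^ 2) * Real.log 2 =
          2 * c / Real.log 2 * ((pY T : ℝ) ^ 2 * Real.log 2 ^ 2) := by
        field_simp
      rw [this]
      have h9 : 2 * (c : ℝ) / Real.log 2 ≤ (2 * c + 1) / Real.log 2 := by
        apply div_le_div_of_nonneg_right _ hl2.le
        linarith
      exact mul_le_mul h9 e2 (by positivity) (by positivity)
    linarith
  calc (s : ℝ) ≤ ((2 ^ E : ℕ) : ℝ) := by exact_mod_cast h7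
    _ = Real.exp ((E : ℝ) * Real.log 2) := by
        rw [mul_comm, Real.exp_mul, Real.exp_log (by norm_num), Real.rpow_natCast]
        push_cast
        rfl
    _ ≤ _ := Real.exp_le_exp.2 hE

/-- size of the parameters -/
theorem prm_size (κ K : ℕ) (hκ : 0 < κ) (hK : 0 < K) : ∃ C : ℝ, 0 < C ∧ ∀ T : ℕ, 16 ≤ T →
    ∀ s ∈ ({pr κ K T ^ pn κ K T, pf κ K T ^ pb κ K T, pf κ K T ^ 2, 2 ^ (2 * pb κ K T),
      2 ^ pB0 κ T + pM T ^ (pD κ T + 1), 4 * pM T + 6, pr κ K T, κ * T} : Set ℕ),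
    (s : ℝ) ≤ Real.exp (C * Real.log T ^ 2 / Real.log (Real.log T)) := by
  obtain ⟨c2, hc2⟩ : ∃ c2 : ℕ, c2 = 2 * Nat.log 2 κ + 6 := ⟨_, rfl⟩
  obtain ⟨c3, hc3⟩ : ∃ c3 : ℕ, c3 = 2 * c2 + (Nat.log 2 κ + 1) := ⟨_, rfl⟩
  obtain ⟨c4, hc4⟩ : ∃ c4 : ℕ, c4 = c3 * K := ⟨_, rfl⟩
  obtain ⟨c5, hc5⟩ : ∃ c5 : ℕ, c5 = 4 * c4 + 4 := ⟨_, rfl⟩
  obtain ⟨c6, hc6⟩ : ∃ c6 : ℕ, c6 = c5 + 4 := ⟨_, rfl⟩
  obtain ⟨c, hc⟩ : ∃ c : ℕ, c = (86 * c6 + 4 * c4) * c2 + c6 + 3 * c5 * c4 + 2 * c5 + 2 * c4 +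
    (c3 + 2 * c2 + 3) + 3 + 2 * c2 := ⟨_, rfl⟩
  obtain ⟨C, hC, hmain⟩ := exp_bound c
  refine ⟨C, hC, ?_⟩
  intro T hT
  obtain ⟨hy4, hz2, hTy, hzy, hyz, hzley, hzz⟩ := yz T hT
  obtain ⟨hM0, hMz1, hMz2, hMy, hM1, hM2⟩ := Mfacts T hT
  obtain ⟨hD0, hD1, hD2, hD3⟩ := Dfacts κ T hT
  obtain ⟨-, -, hκT, -, -, -, hf8, -⟩ := prm_exact κ K T hκ hK hT
  rw [← hc2] at hD2
  obtain ⟨y, hy⟩ : ∃ y : ℕ, y = pY T := ⟨_, rfl⟩
  obtain ⟨z, hz⟩ : ∃ z : ℕ, z = pZ T := ⟨_, rfl⟩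
  obtain ⟨M, hM⟩ : ∃ M : ℕ, M = pM T := ⟨_, rfl⟩
  obtain ⟨D, hD⟩ : ∃ D : ℕ, D = pD κ T := ⟨_, rfl⟩
  obtain ⟨B0, hB0⟩ : ∃ B0 : ℕ, B0 = pB0 κ T := ⟨_, rfl⟩
  obtain ⟨b, hb⟩ : ∃ b : ℕ, b = pb κ K T := ⟨_, rfl⟩
  obtain ⟨f, hf⟩ : ∃ f : ℕ, f = pf κ K T := ⟨_, rfl⟩
  obtain ⟨r, hr⟩ : ∃ r : ℕ, r = pr κ K T := ⟨_, rfl⟩
  obtain ⟨t, ht⟩ : ∃ t : ℕ, t = pt2 κ K T := ⟨_, rfl⟩
  obtain ⟨n, hn⟩ : ∃ n : ℕ, n = pn κ K T := ⟨_, rfl⟩
  have eB0 : B0 = (z + 1) * D + Nat.log 2 κ + 1 := by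
    rw [hB0, hz, hD]
    rfl
  have eb : b = B0 * K := by
    rw [hb, hB0]
    rfl
  have er : r = 7 * f + (4 * M + 6) := by
    rw [hr, hf, hM]
    rfl
  have et : t = 2 * b / Nat.log 2 r + 1 := by
    rw [ht, hb, hr]
    rfl
  have en : n = D * (20 * M + 24 + t) + 1 := by
    rw [hn, hD, hM, ht]
    rfl
  have hkey : ∀ s E : ℕ, s ≤ 2 ^ E → z * E ≤ c * y ^ 2 →
      (s : ℝ) ≤ Real.exp (C * Real.log T ^ 2 / Real.log (Real.log T)) := by
    intro s E h1 h2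
    rw [hy, hz] at h2
    exact hmain T hT s E h1 h2
  rw [← hr, ← hn, ← hf, ← hb, ← hB0, ← hM, ← hD]
  rw [← hy, ← hz] at hzy hyz hzley hzz
  rw [← hy] at hy4
  rw [← hz] at hz2
  rw [← hM] at hM0 hMz1 hMz2 hMy hM1
  rw [← hy, ← hz] at hMz1
  rw [← hy, ← hz] at hMz2
  rw [← hz] at hM1
  rw [← hD, ← hy, ← hz] at hD2
  rw [← hM, ← hD] at hD3 hκT
  rw [← hz] at hD3
  rw [← hf, ← hb] at hf8
  clear hy hz hM hD hB0 hb hf hr ht hn hTy hD0 hD1 hMy hmain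
  -- bounds
  have hy1 : 1 ≤ y := by omega
  have hyy : y ≤ y ^ 2 := by nlinarith
  have hzD : (z + 1) * D ≤ 2 * c2 * y := by
    calc (z + 1) * D ≤ (2 * z) * D := Nat.mul_le_mul_right _ (by omega)
      _ = 2 * (D * z) := by ring
      _ ≤ 2 * (c2 * y) := Nat.mul_le_mul_left _ hD2
      _ = 2 * c2 * y := by ring
  have hB : B0 ≤ c3 * y := by
    have h1 : Nat.log 2 κ + 1 ≤ (Nat.log 2 κ + 1) * y := Nat.le_mul_of_pos_right _ hy1
    calc B0 = (z + 1) * D + (Nat.log 2 κ + 1) := by rw [eB0]; ring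
      _ ≤ 2 * c2 * y + (Nat.log 2 κ + 1) * y := Nat.add_le_add hzD h1
      _ = c3 * y := by rw [hc3]; ring
  have hbb : b ≤ c4 * y := by
    calc b = B0 * K := eb
      _ ≤ c3 * y * K := Nat.mul_le_mul_right _ hB
      _ = c4 * y := by rw [hc4]; ring
  have hff : f ≤ 2 ^ (c5 * z) := by
    have h1 : f ≤ (4 * c4 + 2) * y := by
      calc f ≤ 4 * b + 8 := hf8
        _ ≤ 4 * (c4 * y) + 2 * y := Nat.add_le_add (Nat.mul_le_mul_left _ hbb) (by omega)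
        _ = (4 * c4 + 2) * y := by ring
    calc f ≤ (4 * c4 + 2) * y := h1
      _ ≤ 2 ^ (4 * c4 + 2) * 2 ^ (z + 1) := Nat.mul_le_mul Nat.lt_two_pow_self.le hyz.le
      _ = 2 ^ (4 * c4 + 2 + (z + 1)) := by rw [← pow_add]
      _ ≤ 2 ^ (c5 * z) := by
          apply Nat.pow_le_pow_right (by norm_num)
          have h2 : c4 ≤ c4 * z := Nat.le_mul_of_pos_right _ (by omega)
          have h3 : c5 * z = 4 * (c4 * z) + 4 * z := by rw [hc5]; ring
          rw [h3]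
          omega
  have hm : 4 * M + 6 ≤ 2 ^ (3 * z) := by
    calc 4 * M + 6 ≤ 4 * 2 ^ (z + 1) + 2 ^ 3 := by omega
      _ ≤ 4 * 2 ^ (z + 1) + 4 * 2 ^ (z + 1) := by
          apply Nat.add_le_add_left
          have : 2 ^ 3 ≤ 2 ^ (z + 1) := Nat.pow_le_pow_right (by norm_num) (by omega)
          omega
      _ = 2 ^ (z + 4) := by ring
      _ ≤ 2 ^ (3 * z) := Nat.pow_le_pow_right (by norm_num) (by omega)
  have hrr : r ≤ 2 ^ (c6 * z) := by
    have h1 : 2 ^ (3 * z) ≤ 2 ^ (c5 * z) :=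
      Nat.pow_le_pow_right (by norm_num) (Nat.mul_le_mul_right _ (by omega))
    calc r = 7 * f + (4 * M + 6) := er
      _ ≤ 7 * 2 ^ (c5 * z) + 2 ^ (c5 * z) :=
          Nat.add_le_add (Nat.mul_le_mul_left _ hff) (hm.trans h1)
      _ = 2 ^ (c5 * z + 3) := by ring
      _ ≤ 2 ^ (c6 * z) := by
          apply Nat.pow_le_pow_right (by norm_num)
          have h3 : c6 * z = c5 * z + 4 * z := by rw [hc6]; ring
          rw [h3]
          omega
  have hr2 : 2 ≤ r := by omega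
  have hrt : r ^ t ≤ 2 ^ ((4 * c4 + 2 * c6) * y) := by
    have hL : 1 ≤ Nat.log 2 r :=
      Nat.le_log_of_pow_le (by norm_num) (by rw [pow_one]; exact hr2)
    have hL2 : Nat.log 2 r ≤ c6 * z := by
      have h1 : 2 ^ Nat.log 2 r ≤ 2 ^ (c6 * z) :=
        (Nat.pow_log_le_self 2 (by omega)).trans hrr
      exact (Nat.pow_le_pow_iff_right (by norm_num)).1 h1
    have h1 : r ≤ 2 ^ (2 * Nat.log 2 r) := by
      calc r ≤ 2 ^ (Nat.log 2 r + 1) := (Nat.lt_pow_succ_log_self (by norm_num) r).le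
        _ ≤ 2 ^ (2 * Nat.log 2 r) := Nat.pow_le_pow_right (by norm_num) (by omega)
    have h2 : Nat.log 2 r * t ≤ 2 * b + Nat.log 2 r := by
      have h3 : Nat.log 2 r * t = Nat.log 2 r * (2 * b / Nat.log 2 r) + Nat.log 2 r := by
        rw [et]
        ring
      rw [h3]
      have := Nat.mul_div_le (2 * b) (Nat.log 2 r)
      omega
    calc r ^ t ≤ (2 ^ (2 * Nat.log 2 r)) ^ t := Nat.pow_le_pow_left h1 _
      _ = 2 ^ (2 * (Nat.log 2 r * t)) := by rw [← pow_mul]; congr 1; ring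
      _ ≤ 2 ^ ((4 * c4 + 2 * c6) * y) := by
          apply Nat.pow_le_pow_right (by norm_num)
          have h4 : c6 * z ≤ c6 * y := Nat.mul_le_mul_left _ hzley
          calc 2 * (Nat.log 2 r * t) ≤ 2 * (2 * b + Nat.log 2 r) := Nat.mul_le_mul_left _ h2
            _ ≤ 2 * (2 * (c4 * y) + c6 * y) := by omega
            _ = (4 * c4 + 2 * c6) * y := by ring
  have hrm : r ^ (20 * M + 24) ≤ 2 ^ (84 * c6 * y) := by
    calc r ^ (20 * M + 24) ≤ (2 ^ (c6 * z)) ^ (20 * M + 24) := Nat.pow_le_pow_left hrr _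
      _ = 2 ^ (c6 * (20 * (M * z) + 24 * z)) := by rw [← pow_mul]; congr 1; ring
      _ ≤ 2 ^ (84 * c6 * y) := by
          apply Nat.pow_le_pow_right (by norm_num)
          calc c6 * (20 * (M * z) + 24 * z) ≤ c6 * (84 * y) :=
                Nat.mul_le_mul_left _ (by omega)
            _ = 84 * c6 * y := by ring
  -- the eight numbers
  intro s hs
  simp only [Set.mem_insert_iff, Set.mem_singleton_iff] at hs
  rcases hs with rfl | rfl | rfl | rfl | rfl | rfl | rfl | rfl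
  · refine hkey _ ((86 * c6 + 4 * c4) * y * D + c6 * z) ?_ ?_
    · have e1 : r ^ n = (r ^ (20 * M + 24) * r ^ t) ^ D * r := by
        rw [en, pow_succ, ← pow_add, ← pow_mul, mul_comm D]
      rw [e1]
      have e2 : r ^ (20 * M + 24) * r ^ t ≤ 2 ^ ((86 * c6 + 4 * c4) * y) := by
        calc r ^ (20 * M + 24) * r ^ t ≤ 2 ^ (84 * c6 * y) * 2 ^ ((4 * c4 + 2 * c6) * y) :=
              Nat.mul_le_mul hrm hrt
          _ = 2 ^ ((86 * c6 + 4 * c4) * y) := by rw [← pow_add]; congr 1; ring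
      calc (r ^ (20 * M + 24) * r ^ t) ^ D * r ≤
            (2 ^ ((86 * c6 + 4 * c4) * y)) ^ D * 2 ^ (c6 * z) :=
            Nat.mul_le_mul (Nat.pow_le_pow_left e2 _) hrr
        _ = 2 ^ ((86 * c6 + 4 * c4) * y * D + c6 * z) := by rw [← pow_mul, ← pow_add]
    · have e1 : z * ((86 * c6 + 4 * c4) * y * D) ≤ (86 * c6 + 4 * c4) * c2 * y ^ 2 := by
        calc z * ((86 * c6 + 4 * c4) * y * D) = (86 * c6 + 4 * c4) * y * (D * z) := by ring
          _ ≤ (86 * c6 + 4 * c4) * y * (c2 * y) := Nat.mul_le_mul_left _ hD2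
          _ = (86 * c6 + 4 * c4) * c2 * y ^ 2 := by ring
      have e2 : z * (c6 * z) ≤ c6 * y ^ 2 := by
        calc z * (c6 * z) = c6 * (z * z) := by ring
          _ ≤ c6 * (y * y) := Nat.mul_le_mul_left _ (Nat.mul_le_mul hzley hzley)
          _ = c6 * y ^ 2 := by ring
      calc z * ((86 * c6 + 4 * c4) * y * D + c6 * z) =
            z * ((86 * c6 + 4 * c4) * y * D) + z * (c6 * z) := by ring
        _ ≤ (86 * c6 + 4 * c4) * c2 * y ^ 2 + c6 * y ^ 2 := Nat.add_le_add e1 e2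
        _ = ((86 * c6 + 4 * c4) * c2 + c6) * y ^ 2 := by ring
        _ ≤ c * y ^ 2 := Nat.mul_le_mul_right _ (by rw [hc]; omega)
  · refine hkey _ (c5 * z * (c4 * y)) ?_ ?_
    · calc f ^ b ≤ (2 ^ (c5 * z)) ^ b := Nat.pow_le_pow_left hff _
        _ ≤ (2 ^ (c5 * z)) ^ (c4 * y) := Nat.pow_le_pow_right (by positivity) hbb
        _ = 2 ^ (c5 * z * (c4 * y)) := by rw [← pow_mul]
    · calc z * (c5 * z * (c4 * y)) = c5 * c4 * y * (z * z) := by ring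
        _ ≤ c5 * c4 * y * (3 * y) := Nat.mul_le_mul_left _ hzz
        _ = (3 * c5 * c4) * y ^ 2 := by ring
        _ ≤ c * y ^ 2 := Nat.mul_le_mul_right _ (by rw [hc]; omega)
  · refine hkey _ (c5 * z * 2) ?_ ?_
    · rw [pow_mul]
      exact Nat.pow_le_pow_left hff _
    · calc z * (c5 * z * 2) = 2 * c5 * (z * z) := by ring
        _ ≤ 2 * c5 * (y * y) := Nat.mul_le_mul_left _ (Nat.mul_le_mul hzley hzley)
        _ = (2 * c5) * y ^ 2 := by ring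
        _ ≤ c * y ^ 2 := Nat.mul_le_mul_right _ (by rw [hc]; omega)
  · refine hkey _ (2 * b) le_rfl ?_
    calc z * (2 * b) ≤ y * (2 * (c4 * y)) :=
          Nat.mul_le_mul hzley (Nat.mul_le_mul_left _ hbb)
      _ = (2 * c4) * y ^ 2 := by ring
      _ ≤ c * y ^ 2 := Nat.mul_le_mul_right _ (by rw [hc]; omega)
  · refine hkey _ ((c3 + 2 * c2 + 3) * y) ?_ ?_
    · have e1 : M ^ (D + 1) ≤ 2 ^ ((2 * c2 + 2) * y) := by
        calc M ^ (D + 1) ≤ (2 ^ (z + 1)) ^ (D + 1) := Nat.pow_le_pow_left hM1 _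
          _ = 2 ^ ((z + 1) * D + (z + 1)) := by rw [← pow_mul]; congr 1
          _ ≤ 2 ^ ((2 * c2 + 2) * y) := by
              apply Nat.pow_le_pow_right (by norm_num)
              calc (z + 1) * D + (z + 1) ≤ 2 * c2 * y + 2 * y :=
                    Nat.add_le_add hzD (by omega)
                _ = (2 * c2 + 2) * y := by ring
      have e2 : 2 ^ B0 ≤ 2 ^ (c3 * y) := Nat.pow_le_pow_right (by norm_num) hB
      calc 2 ^ B0 + M ^ (D + 1) ≤ 2 ^ (c3 * y + (2 * c2 + 2) * y) +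
            2 ^ (c3 * y + (2 * c2 + 2) * y) := by
            apply Nat.add_le_add
            · exact e2.trans (Nat.pow_le_pow_right (by norm_num) (by omega))
            · exact e1.trans (Nat.pow_le_pow_right (by norm_num) (by omega))
        _ = 2 ^ (c3 * y + (2 * c2 + 2) * y + 1) := by rw [pow_succ]; ring
        _ ≤ 2 ^ ((c3 + 2 * c2 + 3) * y) := by
            apply Nat.pow_le_pow_right (by norm_num)
            have : (c3 + 2 * c2 + 3) * y = c3 * y + (2 * c2 + 2) * y + y := by ring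
            omega
    · calc z * ((c3 + 2 * c2 + 3) * y) = (c3 + 2 * c2 + 3) * y * z := by ring
        _ ≤ (c3 + 2 * c2 + 3) * y * y := Nat.mul_le_mul_left _ hzley
        _ = (c3 + 2 * c2 + 3) * y ^ 2 := by ring
        _ ≤ c * y ^ 2 := Nat.mul_le_mul_right _ (by rw [hc]; omega)
  · refine hkey _ (3 * z) hm ?_
    calc z * (3 * z) = 3 * (z * z) := by ring
      _ ≤ 3 * (y * y) := Nat.mul_le_mul_left _ (Nat.mul_le_mul hzley hzley)
      _ = 3 * y ^ 2 := by ring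
      _ ≤ c * y ^ 2 := Nat.mul_le_mul_right _ (by rw [hc]; omega)
  · refine hkey _ (c6 * z) hrr ?_
    calc z * (c6 * z) = c6 * (z * z) := by ring
      _ ≤ c6 * (y * y) := Nat.mul_le_mul_left _ (Nat.mul_le_mul hzley hzley)
      _ = c6 * y ^ 2 := by ring
      _ ≤ c * y ^ 2 := Nat.mul_le_mul_right _ (by rw [hc]; omega)
  · refine hkey _ ((z + 1) * D) (hκT.trans hD3) ?_
    calc z * ((z + 1) * D) ≤ y * (2 * c2 * y) := Nat.mul_le_mul hzley hzD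
      _ = (2 * c2) * y ^ 2 := by ring
      _ ≤ c * y ^ 2 := Nat.mul_le_mul_right _ (by rw [hc]; omega)

end Pool.Agent.Helper17.UL
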